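import Pool.Agent.H574R2.Q4.Z
import Pool.Agent.H574R2.D9.Z
import Pool.Agent.H336R2.HD.Z

/-!
# The fields generated by odd zeta values up to `ζ(75)` and up to `ζ(9)`

Algebraic independence of `π, ζ(3), ζ(5), ...` says in particular that no number field contains two of these
numbers. The theorem excludes all number fields of degree at most three for the numbers `ζ(3), ..., ζ(75)` and
all quadratic number fields for `ζ(3), ζ(5), ζ(7), ζ(9)`. It rests on the linear independence theorems of the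
developments `Pool/Agent/H574R2/Q4/` and `Pool/Agent/H574R2/D9/` of the repository this team started from.
-/

namespace Pool.Agent.Results.MP_a89d6d_nt.FieldDegreeFour

/-- A subfield of `ℝ` that contains `ζ(3), ζ(5), ..., ζ(75)` has degree at least four over `ℚ` (or infinite
degree), and the `ℚ`-linear span of `1, ζ(3), ..., ζ(75)` inside it already has dimension at least four. -/
theorem result :
    4 ≤ Module.finrank ℚ (Submodule.span ℚ
      (Set.range fun i : Fin 38 =>
        if i.1 = 0 then (1 : ℝ) else ∑' n : ℕ, 1 / ((n : ℝ) + 1) ^ (2 * i.1 + 1))) ∧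
    ∀ K : IntermediateField ℚ ℝ,
      (∀ i : ℕ, 1 ≤ i → i ≤ 37 → (∑' n : ℕ, 1 / ((n : ℝ) + 1) ^ (2 * i + 1)) ∈ K) →
      FiniteDimensional ℚ K → 4 ≤ Module.finrank ℚ K := by
  have h : 4 ≤ Module.finrank ℚ (Submodule.span ℚ
      (Set.range fun i : Fin 38 =>
        if i.1 = 0 then (1 : ℝ) else ∑' n : ℕ, 1 / ((n : ℝ) + 1) ^ (2 * i.1 + 1))) :=
    Pool.Agent.H574R2.Q4.Z_main (Pool.Agent.H574R2.D9.Z_main Pool.Agent.H336R2.HD.Z_main)
  refine ⟨h, fun K hK hfin => ?_⟩
  have hle : Submodule.span ℚ (Set.range fun i : Fin 38 =>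
      if i.1 = 0 then (1 : ℝ) else ∑' n : ℕ, 1 / ((n : ℝ) + 1) ^ (2 * i.1 + 1)) ≤
      Subalgebra.toSubmodule K.toSubalgebra := by
    rw [Submodule.span_le]
    rintro x ⟨i, rfl⟩
    show (if i.1 = 0 then (1 : ℝ) else ∑' n : ℕ, 1 / ((n : ℝ) + 1) ^ (2 * i.1 + 1)) ∈ K
    split_ifs with h0
    · exact one_mem K
    · exact hK i.1 (Nat.one_le_iff_ne_zero.2 h0) (by omega)
  have hfin' : FiniteDimensional ℚ (Subalgebra.toSubmodule K.toSubalgebra) := hfin
  exact h.trans (Submodule.finrank_mono hle)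

end Pool.Agent.Results.MP_a89d6d_nt.FieldDegreeFour
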