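import Mathlib
import Pool.Agent.H337R2.Un3
import Pool.Agent.H337R2.Un5
import Pool.Agent.H337R2.Un7
import Pool.Agent.H337R2.Un9

set_option autoImplicit false

namespace Pool.Agent.Results.MP_a89d6d_nt.IrrationalInIntervals

open Pool.Agent.H337R2

/-- **Irrational odd zeta values in short intervals.**  For every odd `b ≥ 3` there is an odd `s` with
`b + 2 ≤ s ≤ (21/4) b` such that `ζ(s) = ∑ 1 / n ^ s` is irrational. -/
theorem result (b : ℕ) (hb : Odd b) (hb3 : 3 ≤ b) :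
    ∃ s : ℕ, Odd s ∧ b + 2 ≤ s ∧ 4 * s ≤ 21 * b ∧
      Irrational (∑' n : ℕ, 1 / ((n : ℝ) + 1) ^ s) := by
  have hB : (expd ubdm).length = 34 := by decide +kernel
  have h3 : (expd u3dm).length = 14 := by decide +kernel
  have h5 : (expd u5dm).length = 22 := by decide +kernel
  have h7 : (expd u7dm).length = 30 := by decide +kernel
  have h9 : (expd u9dm).length = 40 := by decide +kernel
  obtain ⟨k, hk⟩ := hb
  have hcase : ∃ m : ℕ, b = 3 + 8 * m ∨ b = 5 + 8 * m ∨ b = 7 + 8 * m ∨ b = 9 + 8 * m := by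
    refine ⟨(b - 3) / 8, ?_⟩
    omega
  obtain ⟨m, h | h | h | h⟩ := hcase
  · obtain ⟨i, hio, hi3, hi, hirr⟩ := certU_irrational u3cert m
    rw [h3, hB] at hi
    obtain ⟨j, hj⟩ := hio
    refine ⟨i + (3 + 8 * m - 1), ⟨j + (1 + 4 * m), by omega⟩, by omega, by omega, hirr⟩
  · obtain ⟨i, hio, hi3, hi, hirr⟩ := certU_irrational u5cert m
    rw [h5, hB] at hi
    obtain ⟨j, hj⟩ := hio
    refine ⟨i + (5 + 8 * m - 1), ⟨j + (2 + 4 * m), by omega⟩, by omega, by omega, hirr⟩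
  · obtain ⟨i, hio, hi3, hi, hirr⟩ := certU_irrational u7cert m
    rw [h7, hB] at hi
    obtain ⟨j, hj⟩ := hio
    refine ⟨i + (7 + 8 * m - 1), ⟨j + (3 + 4 * m), by omega⟩, by omega, by omega, hirr⟩
  · obtain ⟨i, hio, hi3, hi, hirr⟩ := certU_irrational u9cert m
    rw [h9, hB] at hi
    obtain ⟨j, hj⟩ := hio
    refine ⟨i + (9 + 8 * m - 1), ⟨j + (4 + 4 * m), by omega⟩, by omega, by omega, hirr⟩

end Pool.Agent.Results.MP_a89d6d_nt.IrrationalInIntervals
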